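import Pool.Agent.Helper41_AHH.KN1
import Pool.Agent.Helper41_AHH.Sca
import Pool.Agent.Helper61_AHH.Num
import Pool.Agent.Helper28_AHH.KGeo
import Pool.Agent.Helper38_AHH.KPhi

/-!
# AND2B, field kil, second half: the data of the numeric lemmas from the environment (helper30)
-/

set_option autoImplicit false
set_option linter.unusedSectionVars false

open scoped BigOperators NNReal

noncomputable section

namespace Pool.Agent.AHH.H30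

open Pool.Agent.AND.Num
open Pool.Agent.AHH.H41
open Pool.Agent.ANP (Cfg)
open Pool.Agent.AND2B (Ev)
open Pool.Agent.AND2B.H28 (Kd sum_Dn sg_geo rkn KH)
open Pool.Agent.KL2

variable {d : ℕ}

/-- the constant of the number of dead sites -/
def Kz (d : ℕ) (th : ℝ≥0) : ℝ := 2 + 4 * Kd d th

/-- the size of a cluster -/
def clu (V : AND2B.Env d) (n : ℕ) : ℕ := 3 ^ d * V.J * (6 * 2 ^ V.l (n - 1) + 1) ^ d

/-- the lower bound of `lam` -/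
theorem lam_lo {V : AND2B.Env d} {n : ℕ} {s : ℝ} (h : Sz V n s) :
    1 / 4 * s ^ (-(3 / 4) : ℝ) ≤ (qq V n (V.kk (n + 1))).lam := by
  show _ ≤ 1 / 4 * (V.cl (V.kk (n + 1)) : ℝ) ^ (-(3 / 4) : ℝ) * (2 - V.sg n ^ (1 / 400 : ℝ))
  have h1 : V.sg n ^ (1 / 400 : ℝ) ≤ 1 := by
    refine Real.rpow_le_one (h.spos n).le ?_ (by norm_num)
    have h2 : V.sg n ≤ V.w := by exact_mod_cast cl_le V h.hth.2.le _
    exact h2.trans h.hw1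
  have h3 : s = (V.cl (V.kk (n + 1)) : ℝ) := h.hs
  rw [← h3]
  have h4 : 0 ≤ 1 / 4 * s ^ (-(3 / 4) : ℝ) :=
    mul_nonneg (by norm_num) (Real.rpow_nonneg h.pos.le _)
  nlinarith

/-- the upper bound of `lam` -/
theorem lam_up {V : AND2B.Env d} {n : ℕ} {s : ℝ} (h : Sz V n s) :
    (qq V n (V.kk (n + 1))).lam ≤ 1 / 2 * s ^ (-(3 / 4) : ℝ) := by
  show 1 / 4 * (V.cl (V.kk (n + 1)) : ℝ) ^ (-(3 / 4) : ℝ) * (2 - V.sg n ^ (1 / 400 : ℝ)) ≤ _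
  have h1 : 0 ≤ V.sg n ^ (1 / 400 : ℝ) := Real.rpow_nonneg (h.spos n).le _
  have h3 : s = (V.cl (V.kk (n + 1)) : ℝ) := h.hs
  rw [← h3]
  have h4 : 0 ≤ 1 / 4 * s ^ (-(3 / 4) : ℝ) :=
    mul_nonneg (by norm_num) (Real.rpow_nonneg h.pos.le _)
  nlinarith

/-- the dead sites, doubled -/
theorem zc_le {a : ℝ} {V : AND2B.Env d} (hV : V.Pre a) {n : ℕ} (hn : n ≤ V.N)
    (hs1 : V.sg (n + 1) ≤ 1) :
    Zc d n (fun j => 2 * V.Dn j) ≤ Kz d V.th * V.sg (n + 1) ^ (-(5 / 4) : ℝ) := by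
  have h1 := sum_Dn hV hn
  have hs : 0 < V.sg (n + 1) := H61.sg_pos hV _
  have h2 : 1 ≤ V.sg (n + 1) ^ (-(5 / 4) : ℝ) :=
    Real.one_le_rpow_of_pos_of_le_one_of_nonpos hs hs1 (by norm_num)
  have h3 : ∑ i ∈ Finset.range (n + 1), (3 ^ d * ((2 * V.Dn i : ℕ) : ℝ)) =
      2 * ∑ i ∈ Finset.range (n + 1), (3 ^ d * V.Dn i : ℝ) := by
    rw [Finset.mul_sum]
    refine Finset.sum_congr rfl fun i _ => ?_
    push_cast
    ring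
  unfold Zc Kz
  rw [h3]
  have h4 : (-(5 / 4) : ℝ) = -(5 / 4 : ℝ) := rfl
  nlinarith

theorem zc_le' {a : ℝ} {V : AND2B.Env d} (hV : V.Pre a) {n : ℕ} (hn : n ≤ V.N)
    (hs1 : V.sg (n + 1) ≤ 1) :
    Zc d n V.Dn ≤ Kz d V.th * V.sg (n + 1) ^ (-(5 / 4) : ℝ) :=
  (zc_mono V.Dn).trans (zc_le hV hn hs1)

/-- the clocks at the starts of the super-stages -/
theorem sg_pow {a : ℝ} {V : AND2B.Env d} (hV : V.Pre a) (i : ℕ) :
    V.sg i ≤ (V.th : ℝ) ^ i * V.w := by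
  have h1 := sg_geo hV 0 i
  rw [zero_add] at h1
  exact h1.trans (mul_le_mul_of_nonneg_left (H61.sg_le hV 0)
    (pow_nonneg (NNReal.coe_nonneg _) _))

/-- the sum with the doubled numbers of dead sites, `w` small after `th` -/
theorem sum2 {a : ℝ} {V : AND2B.Env d} (hV : V.Pre a) {n : ℕ} (hn : n ≤ V.N)
    (hw : 8 * 3 ^ d * (V.w : ℝ) ^ (15 / 4 : ℝ) ≤ 1 - (V.th : ℝ) ^ (15 / 4 : ℝ)) :
    ∑ i ∈ Finset.range (n + 1), (3 ^ d * (2 * V.Dn i : ℕ) : ℝ) / 2 ^ V.l i ≤ 1 / 4 := by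
  have hthr : (0 : ℝ) < V.th := by exact_mod_cast H61.th_pos hV
  have hwp := H61.w_pos hV
  set ρ : ℝ := (V.th : ℝ) ^ (15 / 4 : ℝ) with hρ
  have r0 : 0 < ρ := Real.rpow_pos_of_pos hthr _
  have r1 : ρ < 1 := H61.th_rpow_lt hV (by norm_num)
  have h1 : ∀ i ∈ Finset.range (n + 1), (3 ^ d * (2 * V.Dn i : ℕ) : ℝ) / 2 ^ V.l i ≤
      2 * 3 ^ d * (V.w : ℝ) ^ (15 / 4 : ℝ) * ρ ^ i := by
    intro i hi
    rw [Finset.mem_range] at hi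
    have hs : 0 < V.sg (i + 1) := H61.sg_pos hV _
    have h2 := hV.sc.dl i (by omega)
    have h3 := hV.sc.llow i (by omega)
    have h4 : 0 < V.sg (i + 1) ^ (-(5 : ℝ)) := Real.rpow_pos_of_pos hs _
    have h5 : (V.Dn i : ℝ) / 2 ^ V.l i ≤ V.sg (i + 1) ^ (15 / 4 : ℝ) := by
      rw [div_le_iff₀ (lt_of_lt_of_le h4 h3)]
      refine h2.trans ?_
      have h6 : V.sg (i + 1) ^ (-(5 / 4 : ℝ)) =
          V.sg (i + 1) ^ (15 / 4 : ℝ) * V.sg (i + 1) ^ (-(5 : ℝ)) := by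
        rw [← Real.rpow_add hs]
        norm_num
      rw [h6]
      exact mul_le_mul_of_nonneg_left h3 (Real.rpow_nonneg hs.le _)
    have h7 : V.sg (i + 1) ^ (15 / 4 : ℝ) ≤ ρ ^ i * (V.w : ℝ) ^ (15 / 4 : ℝ) := by
      have h8 : V.sg (i + 1) ≤ (V.th : ℝ) ^ i * V.w :=
        (H61.sg_anti hV (Nat.le_succ i)).trans (sg_pow hV i)
      refine (Real.rpow_le_rpow hs.le h8 (by norm_num)).trans (le_of_eq ?_)
      rw [Real.mul_rpow (by positivity) hwp.le, hρ, ← Real.rpow_natCast (V.th : ℝ),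
        ← Real.rpow_mul hthr.le, ← Real.rpow_natCast ((V.th : ℝ) ^ (15 / 4 : ℝ)),
        ← Real.rpow_mul hthr.le, mul_comm (15 / 4 : ℝ)]
    push_cast
    calc (3 : ℝ) ^ d * (2 * (V.Dn i : ℝ)) / 2 ^ V.l i
        = 2 * 3 ^ d * ((V.Dn i : ℝ) / 2 ^ V.l i) := by ring
      _ ≤ 2 * 3 ^ d * (ρ ^ i * (V.w : ℝ) ^ (15 / 4 : ℝ)) :=
          mul_le_mul_of_nonneg_left (h5.trans h7) (by positivity)
      _ = _ := by ring
  refine (Finset.sum_le_sum h1).trans ?_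
  rw [← Finset.mul_sum]
  have h8 : ∑ i ∈ Finset.range (n + 1), ρ ^ i ≤ 1 / (1 - ρ) := by
    rw [geom_sum_eq r1.ne, div_le_iff_of_neg (by linarith)]
    have h11 : 0 ≤ ρ ^ (n + 1) := pow_nonneg r0.le _
    have h12 : 1 / (1 - ρ) * (ρ - 1) = -1 := by
      have : 1 - ρ ≠ 0 := by linarith
      field_simp
      ring
    rw [h12]
    linarith
  have h9 : 0 ≤ 2 * 3 ^ d * (V.w : ℝ) ^ (15 / 4 : ℝ) := by positivity
  refine (mul_le_mul_of_nonneg_left h8 h9).trans ?_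
  rw [mul_one_div, div_le_iff₀ (by linarith)]
  linarith

/-- THE SIDE CONDITIONS of `kil2`, and the data -/
structure Side (V : AND2B.Env d) (c C : ℝ) (n k : ℕ) : Prop where
  hr : V.r n = k + 2
  dat : ∀ J mm MM hK : ℝ, 0 ≤ J → J ≤ V.sg (n + 1) ^ (3 / 25 : ℝ) → 0 ≤ mm →
    mm ≤ V.sg (n + 1) ^ (1 / 30 : ℝ) → MM ≤ V.sg (n + 1) ^ (-(1 / 5) : ℝ) → 0 ≤ hK →
    hK ≤ V.sg (n + 1) ^ (1 / 10 : ℝ) →
    Dat d V.c₁ (Kz d V.th) (V.sg (n + 1)) n V.Dn V.μ k (clu V n) (V.Kn n) V.e₀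
      ((bud V).q n (V.kk (n + 1))).lam J mm MM hK
  sum : ∑ i ∈ Finset.range (n + 1), (3 ^ d * (2 * V.Dn i : ℕ) : ℝ) / 2 ^ V.l i ≤ 1 / 4
  hZ : (rkn (V.sg (n + 1)) : ℝ) / 2 + Zc d n V.Dn ≤ ((V.G.ρ n : ℕ) : ℝ) / 4
  hCg : (toE V c C).C₀ + ((bud V).q n (V.kk (n + 1))).mis + 2 * (bud V).icR n ≤ 2 * C + 3
  icR : 0 ≤ (bud V).icR n
  lR : 0 ≤ (bud V).lR n ∧ 2 * (bud V).lR n ≤ 1
  yR : 0 ≤ (bud V).yR n
  nR : 0 ≤ (bud V).nR n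
  eps : ((bud V).q n (V.kk (n + 1))).eps ≤ ((bud V).q n (V.kk (n + 1))).rho
  phi : ∀ (P : Finset V.X) (x : V.X), Phi V.G ((bud V).tau n) n P x ≤ 2
  hclu : (clu V n : ℝ) ≤ V.sg (n + 1) ^ (-V.c₁)
  hkn : (V.Kn n : ℝ) ≤ V.sg (n + 1) ^ (-(6 / 5) : ℝ)
  hdn : clu V n + V.Kn n ≤ V.Dn n
  s0 : 0 < V.sg (n + 1)
  s1 : V.sg (n + 1) ≤ 1 / 2
  w1 : (V.w : ℝ) ≤ 1
  e0 : 0 < V.e₀ ∧ V.e₀ ≤ V.sg (n + 1)

theorem ev_side (d : ℕ) (a c C : ℝ) (hc : 0 < c) (hC : 1 ≤ C) :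
    Ev d a es c C fun V => ∀ n, 1 ≤ n → n ≤ V.N → ∃ k, Side V c C n k := by
  -- the small powers
  have h1 : Ev d a es c C fun V => ∀ s : ℝ, 0 < s → s ≤ V.w →
      (s ≤ 1 / 2 ∧ 8 * 3 ^ d * s ^ (15 / 4 : ℝ) ≤ (1 - (V.th : ℝ) ^ (15 / 4 : ℝ)) * s ^ (0 : ℝ)) ∧
      (1 * s ^ (-(8 / 5) : ℝ) ≤ 1 / 8 * s ^ (-(3 : ℝ)) ∧
        Kz d V.th * s ^ (-(5 / 4) : ℝ) ≤ 1 / 8 * s ^ (-(3 : ℝ))) ∧
      (2 * s ^ (1 / 200 : ℝ) ≤ s ^ (0 : ℝ) ∧ 2 * s ^ (-(4 : ℝ)) ≤ s ^ (-(5 : ℝ))) := by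
    refine H61.ev_small (fun th _ _ _ _ s =>
      (s ≤ 1 / 2 ∧ 8 * 3 ^ d * s ^ (15 / 4 : ℝ) ≤ (1 - (th : ℝ) ^ (15 / 4 : ℝ)) * s ^ (0 : ℝ)) ∧
      (1 * s ^ (-(8 / 5) : ℝ) ≤ 1 / 8 * s ^ (-(3 : ℝ)) ∧
        Kz d th * s ^ (-(5 / 4) : ℝ) ≤ 1 / 8 * s ^ (-(3 : ℝ))) ∧
      (2 * s ^ (1 / 200 : ℝ) ≤ s ^ (0 : ℝ) ∧ 2 * s ^ (-(4 : ℝ)) ≤ s ^ (-(5 : ℝ)))) ?_
    intro th c₁ C₁ α J hth hth1 _ _
    have ht : 0 < 1 - (th : ℝ) ^ (15 / 4 : ℝ) := by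
      have := Real.rpow_lt_one (NNReal.coe_nonneg th) (show (th : ℝ) < 1 by exact_mod_cast hth1)
        (show (0 : ℝ) < 15 / 4 by norm_num)
      linarith
    exact (((small_le (1 / 2) (by norm_num)).and
      (small_pow' (8 * 3 ^ d) _ (15 / 4) 0 ht (by norm_num))).and
      (((small_pow' 1 (1 / 8) _ _ (by norm_num) (by norm_num)).and
        (small_pow' (Kz d th) (1 / 8) _ _ (by norm_num) (by norm_num))).and
      ((small_pow 2 (1 / 200) 0 (by norm_num)).and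
        (small_pow 2 _ _ (by norm_num)))))
  have h2 : Ev d a es c C fun V => V.e₀ ≤ V.sg (V.N + 1) :=
    H61.ev_e0 (fun V => V.sg (V.N + 1)) (fun V hV => H61.sg_pos hV _) (fun _ _ _ _ => rfl)
  refine ((((H61.ev_good.and h1).and h2).and (H61.budOk d a c C hc hC)).and
    (H38.ev_phi (d := d) (a := a) (e := es) (c := c) (C := C))).imp ?_
  rintro V ⟨⟨⟨⟨hG, hV⟩, he⟩, hB⟩, hphi⟩ n hn1 hn
  have hP : V.Pre a := hG.toPre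
  have hw := H61.w_pos hP
  obtain ⟨⟨w1, w2⟩, -, -⟩ := hV V.w hw le_rfl
  rw [Real.rpow_zero, mul_one] at w2
  have hz := Sz.of_pre hP (show (V.w : ℝ) ≤ 1 by linarith) hn
  set s := V.sg (n + 1) with hs
  obtain ⟨⟨s1, -⟩, ⟨s2, s3⟩, s4, s5⟩ := hV s hz.pos hz.le_w
  rw [Real.rpow_zero] at s4
  have hsp := hz.pos
  -- the radius
  have hr3 : s ^ (-(3 : ℝ)) ≤ (2 : ℝ) ^ V.r n := hz.r_lo
  have hr1 : (8 : ℝ) ≤ s ^ (-(3 : ℝ)) := by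
    have e1 : ((2 : ℝ)⁻¹) ^ (-(3 : ℝ)) = 8 := by
      rw [show (-(3 : ℝ)) = ((-3 : ℤ) : ℝ) by norm_num, Real.rpow_intCast]
      norm_num
    rw [← e1]
    exact Real.rpow_le_rpow_of_nonpos hsp (by linarith) (by norm_num)
  have hr2 : 2 ≤ V.r n := by
    by_contra hcon
    have e1 : V.r n ≤ 1 := by omega
    have e2 : (2 : ℝ) ^ V.r n ≤ 2 ^ 1 := pow_le_pow_right₀ (by norm_num) e1
    linarith
  obtain ⟨k, hk⟩ : ∃ k, V.r n = k + 2 := ⟨V.r n - 2, by omega⟩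
  have hrμ : V.r n ≤ V.μ := by
    have e1 : (2 : ℝ) ^ V.r n ≤ s ^ (-(4 : ℝ)) := hz.r_up.le
    have e2 : s ^ (-(5 : ℝ)) ≤ (2 : ℝ) ^ V.l n := hz.L_lo
    have e3 : 0 < s ^ (-(4 : ℝ)) := Real.rpow_pos_of_pos hsp _
    have e4 : (2 : ℝ) ^ V.r n < 2 ^ V.l n := by linarith
    have e5 : V.r n < V.l n := (pow_lt_pow_iff_right₀ (by norm_num)).1 e4
    have e6 := hP.sc.lm hn
    have e7 := hP.sc.lN
    omega
  have hclu : (clu V n : ℝ) ≤ s ^ (-V.c₁) := by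
    refine le_trans (le_of_eq ?_) (hz.clu hn1).le
    unfold clu
    push_cast
    rfl
  have hkn : (V.Kn n : ℝ) ≤ s ^ (-(6 / 5) : ℝ) := hz.kn.le
  have he0 : V.e₀ ≤ s := he.trans (H61.sg_anti hP (by omega))
  refine ⟨k, hk, fun J mm MM hK j1 j2 m1 m2 M1 k1 k2 =>
    { he := ⟨hG.e0, he0⟩
      lam := ⟨lam_lo hz, lam_up hz⟩
      hM := by omega
      rho := by
        rw [← hk]
        exact hr3
      clu := hclu
      kn := hkn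
      zc := zc_le hP hn (by linarith)
      J := ⟨j1, j2⟩
      mm := ⟨m1, m2⟩
      MM := M1
      hK := ⟨k1, k2⟩ }, sum2 hP hn w2, ?_, ?_, (hB.icR n).1, ⟨(hB.icR n).2.1, s4⟩,
    (hB.icR n).2.2.1, (hB.icR n).2.2.2.1, (hB.q n _).2.2.2.2, hphi n hn, hclu, hkn, ?_, hsp, s1,
    by linarith, hG.e0, he0⟩
  · have e1 : (rkn s : ℝ) ≤ s ^ (-(8 / 5 : ℝ)) := Nat.floor_le (Real.rpow_nonneg hsp.le _)
    have e2 := zc_le' hP hn (by linarith : V.sg (n + 1) ≤ 1)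
    have e3 : ((V.G.ρ n : ℕ) : ℝ) = 2 ^ V.r n := by
      rw [gt_r]
      push_cast
      rfl
    have e4 : 0 ≤ s ^ (-(8 / 5 : ℝ)) := Real.rpow_nonneg hsp.le _
    have e5 : 0 ≤ s ^ (-(3 : ℝ)) := Real.rpow_nonneg hsp.le _
    rw [e3]
    rw [one_mul] at s2
    linarith
  · show 2 * C + (V.cl (V.kk (n + 1)) : ℝ) ^ (1 / 8 : ℝ) + 2 * s ^ (1 / 10 : ℝ) ≤ 2 * C + 3
    have e1 : (V.cl (V.kk (n + 1)) : ℝ) ^ (1 / 8 : ℝ) ≤ 1 :=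
      Real.rpow_le_one (NNReal.coe_nonneg _) (by
        have : (V.cl (V.kk (n + 1)) : ℝ) = s := rfl
        linarith) (by norm_num)
    have e2 : s ^ (1 / 10 : ℝ) ≤ 1 := Real.rpow_le_one hsp.le (by linarith) (by norm_num)
    linarith
  · have e1 := hP.sc.dn n hn1
    have e2 : 1 ≤ 3 ^ d * V.J := Nat.mul_pos (by positivity) hP.sc.scl.J1
    refine le_trans ?_ e1
    unfold clu
    have e3 : V.Kn n + 3 ^ d * V.J * (6 * 2 ^ V.l (n - 1) + 1) ^ d ≤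
        3 ^ d * V.J * (V.Kn n + 3 ^ d * V.J * (6 * 2 ^ V.l (n - 1) + 1) ^ d) :=
      Nat.le_mul_of_pos_left _ e2
    omega

/-! ### the cluster -/

section clus

variable {V : AND2B.Env d} {c C a : ℝ} {n k : ℕ} {T₀ T T' : Cfg V.X} {run₀ run P Q : Finset V.X}
  {v : V.X → ℝ} {rk : ℕ} {J mm MM hK : ℝ}

theorem card_Q (h : KH V c C n T₀ run₀ P T run Q) : Q.card ≤ clu V n := h.card

/-- THE NUMBERS OF SITES -/
theorem cards (hS : Side V c C n k) (h : KH V c C n T₀ run₀ P T run Q)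
    (hF : Fin1 (toE V c C) n T T' run Q v rk (V.Kn n) J mm MM hK) :
    (Cx.S run Q T').card ≤ clu V n + V.Kn n ∧ (Cx.S run Q T').card ≤ V.Dn n ∧
      (Q.card : ℝ) ≤ V.sg (n + 1) ^ (-V.c₁) ∧
      ((Ks run T').card : ℝ) ≤ V.sg (n + 1) ^ (-(6 / 5) : ℝ) := by
  have h1 : (Cx.S run Q T').card ≤ clu V n + V.Kn n := by
    unfold Cx.S
    exact (Finset.card_union_le _ _).trans (add_le_add (card_Q h) hF.num)
  refine ⟨h1, h1.trans hS.hdn, ?_, ?_⟩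
  · refine le_trans ?_ hS.hclu
    exact_mod_cast card_Q h
  · refine le_trans ?_ hS.hkn
    exact_mod_cast hF.num

/-- THE SITUATION -/
theorem cx (hV : V.Pre a) (he : 0 < V.e₀) (hc : 0 < c) (h : KH V c C n T₀ run₀ P T run Q)
    (hF : Fin1 (toE V c C) n T T' run Q v rk (V.Kn n) J mm MM hK) :
    Cx V.J V.N V.l V.r (toE V c C) (bud V) n T₀ run₀ P T run Q v T' rk J mm MM hK where
  hΓ := rfl
  hl := hV.sc.lm
  c0 := by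
    show 0 < c / 2
    linarith
  e0 := he
  clp := cl_pos V hV.w (H61.th_pos hV) _
  fc := h.fc
  rl := h.rl
  ne := h.ne
  fro := h.pen
  iso := h.iso
  far := h.far
  f1 := hF

end clus

end Pool.Agent.AHH.H30
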