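import Pool.Agent.Helper30_AHH.Dat
import Pool.Agent.Helper41_AHH.KN2
import Pool.Agent.Helper34_KL2.Kil2
import Pool.Agent.Helper28_AHH.Kil

/-!
# AND2B: the second half of the field kil from `KN3` (helper30)
-/

set_option autoImplicit false
set_option linter.unusedSectionVars false

open scoped BigOperators NNReal

noncomputable section

namespace Pool.Agent.AHH.H30

open Pool.Agent.AND.Num
open Pool.Agent.AHH.H41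
open Pool.Agent.ANP (Cfg)
open Pool.Agent.AND2B (Ev)
open Pool.Agent.AND2B.H28 (Kd sum_Dn sg_geo rkn KH KilSStmt)
open Pool.Agent.KL2

/-- KN3 with the powers of `H41.kn2` -/
def Kn3Stmt : Prop := ∀ (d : ℕ) (a c C : ℝ), 3 ≤ d → 0 < a → 0 < c → c ≤ 1 / 2 → 1 ≤ C →
  Ev d a es c C fun V => ∀ n, 1 ≤ n → n ≤ V.N → ∀ k, Side V c C n k → ∃ (Jc Jr : ℕ) (ε u : ℝ),
    KN3 d (clu V n + V.Kn n) Jc Jr (V.G.ρ n) (rkn (V.sg (n + 1))) (toE V c C).c₀ (toE V c C).u₀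
      (toE V c C).D₀ (toE V c C).D₁ ((bud V).q n (V.kk (n + 1))).rho ((bud V).nR n)
      ((bud V).tau n) (V.sg (n + 1) * (c / 2)) (V.sg (n + 1) * (c / 2) / (8 * d))
      (Real.exp (-(V.sg (n + 1) ^ (-(1 / 2) : ℝ)))) (V.sg (n + 1) ^ (-V.c₁))
      (V.sg (n + 1) ^ (1033 / 1000 : ℝ)) (V.sg (n + 1) ^ (33 / 1000 : ℝ))
      (V.sg (n + 1) ^ (-(1 / 5) : ℝ)) (V.sg (n + 1) ^ (1024 / 1000 : ℝ))
      (V.sg (n + 1) ^ (24 / 1000 : ℝ)) (V.sg (n + 1) ^ (-(201 / 1000) : ℝ)) ε u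

/-- THE SECOND HALF -/
theorem kilS (h3 : Kn3Stmt) : KilSStmt := by
  intro d a c C hd ha hc hc' hC
  have hc2 : 0 < c / 2 := by linarith
  -- KN1, KN2
  have h1 := H61.ev_small (d := d) (a := a) (es := es) (c := c) (C := C)
    (fun th c₁ _ _ _ s => ∀ (n : ℕ) (Dn : ℕ → ℕ) (μ k clu kn : ℕ) (e₀ lam J mm MM hK : ℝ),
      Dat d c₁ (Kz d th) s n Dn μ k clu kn e₀ lam J mm MM hK →
      KN1 (s * (c / 2)) (c / 2) lam (s ^ (1 / 10 : ℝ)) (s ^ (1 / 200 : ℝ)) (s ^ (1 / 100 : ℝ))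
        (s ^ (5 * (d : ℝ))) (2 * C + 3)
        (J + 4 / (s * (c / 2)) *
          Real.exp (-(s * (c / 2) / (8 * d) / 4 * ((2 ^ (k + 2) : ℕ) : ℝ))))
        (mm + 8 / (s * (c / 2)) *
          Real.exp (-(s * (c / 2) / (8 * d) / 4 * ((2 ^ (k + 2) : ℕ) : ℝ))))
        (8 / (s * (c / 2))) (s * (c / 2) / (8 * d) / 4) (s ^ (10 : ℝ)) (2 ^ (k + 2)))
    (fun th c₁ _ _ _ _ _ _ _ => kn1 d (c / 2) (2 * C + 3) c₁ (Kz d th) hd hc2 (by linarith))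
  have h2 := H61.ev_small (d := d) (a := a) (es := es) (c := c) (C := C)
    (fun th c₁ _ _ _ s => c₁ ≤ 1 / 1000 →
      ∀ (n : ℕ) (Dn : ℕ → ℕ) (μ k clu kn : ℕ) (e₀ lam J mm MM hK : ℝ),
      Dat d c₁ (Kz d th) s n Dn μ k clu kn e₀ lam J mm MM hK →
      ∀ nQ nK : ℝ, 0 ≤ nQ → nQ ≤ s ^ (-(1 / 1000) : ℝ) → 0 ≤ nK → nK ≤ s ^ (-(6 / 5) : ℝ) →
      KN2 d n Dn μ k ⌊s ^ (-(8 / 5) : ℝ)⌋₊ ⌊s ^ (-(8 / 5) : ℝ)⌋₊ (clu + kn)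
        s (c / 2) (2 * C) e₀ lam (2 * C + 3) (s * (c / 2)) (s * (c / 2) / (8 * d))
        (s * (2 * C + 1)) nQ nK
        (16 * Real.exp (2 * (s * (c / 2) / (8 * d)) * Zc d n fun j => 2 * Dn j))
        (Real.exp (-(s ^ (-(1 / 2) : ℝ)))) mm MM hK
        (s ^ (1033 / 1000 : ℝ)) (s ^ (33 / 1000 : ℝ)) (s ^ (-(1 / 5) : ℝ))
        (s ^ (1024 / 1000 : ℝ)) (s ^ (24 / 1000 : ℝ)) (s ^ (-(201 / 1000) : ℝ)))
    (fun th c₁ _ _ _ _ _ _ _ => by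
      by_cases h : c₁ ≤ 1 / 1000
      · exact (kn2 d (c / 2) (2 * C) (2 * C + 3) c₁ (Kz d th) hd hc2 (by linarith) (by linarith)
          h).mono fun s _ hs _ => hs
      · exact Small.pos.mono fun s _ _ h' => absurd h' h)
  refine (((((H61.ev_good.and h1).and h2).and (H61.ev_c1 (1 / 1000) (by norm_num))).and
    (ev_side d a c C hc hC)).and (h3 d a c C hd ha hc hc' hC)).imp ?_
  rintro V ⟨⟨⟨⟨⟨hG, h1⟩, h2⟩, hc1⟩, hS⟩, h3⟩ n T₀ T run₀ run P Q v T' hK hF -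
  have hP : V.Pre a := hG.toPre
  obtain ⟨k, hS⟩ := hS n hK.n1 hK.nN
  obtain ⟨Jc, Jr, ε, u, h3⟩ := h3 n hK.n1 hK.nN k hS
  have hs := hS.s0
  have hsw : V.sg (n + 1) ≤ V.w := H61.sg_le hP _
  have rp : ∀ p : ℝ, 0 ≤ V.sg (n + 1) ^ p := fun p => Real.rpow_nonneg hs.le p
  have hD := hS.dat _ _ _ _ (rp (3 / 25)) le_rfl (rp (1 / 30)) le_rfl
    (le_refl (V.sg (n + 1) ^ (-(1 / 5) : ℝ))) (rp (1 / 10)) le_rfl
  have hcx := cx hP hG.e0 hc hK hF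
  obtain ⟨c1, c2, c3, c4⟩ := cards hS hK hF
  have hρ : V.G.ρ n = 2 ^ (k + 2) := by rw [gt_r, hS.hr]
  have k1 := h1 _ hs hsw n V.Dn V.μ k _ _ _ _ _ _ _ _ hD
  have k2 := h2 _ hs hsw hc1 n V.Dn V.μ k _ _ _ _ _ _ _ _ hD (V.sg (n + 1) ^ (-V.c₁))
    (V.sg (n + 1) ^ (-(6 / 5) : ℝ)) (rp _)
    (Real.rpow_le_rpow_of_exponent_ge hs (by linarith [hS.s1]) (by linarith)) (rp _) le_rfl
  rw [← hρ] at k1
  exact hcx.kil2 hd k1 k2 h3 (rp _) hS.hr hS.eps c1 c2 c3 c4 hS.sum hS.hZ hS.hCg hS.icR hS.lR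
    hS.yR hS.phi

end Pool.Agent.AHH.H30
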